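import Mathlib
import Pool.Agent.Q4.Gcd.Thm

set_option autoImplicit false

/-!
# Common divisors at truncated expansions

Vojta's inequality for the blow-up of projective space in a subscheme of codimension two,
at the points `(1 : q : ⌊θ₁ q⌋ : … : ⌊θₙ q⌋)`.
-/

namespace Pool.Agent.Results.MP_17a322_nt.CommonDivisorsAtTruncations

open MvPolynomial

/-- the point `(q, ⌊θ₁ q⌋, …, ⌊θₙ q⌋)`; the variable `none` is the one of `q` -/
noncomputable def point {n : ℕ} (θ : Fin n → ℝ) (q : ℕ) : Option (Fin n) → ℤ :=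
  fun o => o.elim (q : ℤ) (fun s => ⌊θ s * q⌋)

/-- Let `1, θ₁, …, θₙ` (`n ≥ 1`) be real algebraic numbers, linearly independent over `ℚ`, `S` a
finite set of primes, `F` and `G` nonzero polynomials in `n + 1` variables over `ℤ` without
common factor over `ℚ`, and `ε > 0`.  For all large integers `q` composed of primes of `S`, every
common divisor of `F(q, ⌊θ₁ q⌋, …)` and `G(q, ⌊θ₁ q⌋, …)` is smaller than `q ^ ε`. -/
theorem result (n : ℕ) (hn : 1 ≤ n) (θ : Fin n → ℝ) (halg : ∀ s, IsAlgebraic ℚ (θ s))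
    (hind : LinearIndependent ℚ (fun o : Option (Fin n) => (o.elim 1 θ : ℝ)))
    (S : Finset ℕ) (F G : MvPolynomial (Option (Fin n)) ℤ) (hF : F ≠ 0) (hG : G ≠ 0)
    (hFG : IsRelPrime (map (Int.castRingHom ℚ) F) (map (Int.castRingHom ℚ) G))
    (ε : ℝ) (hε : 0 < ε) :
    ∃ q₀ : ℕ, ∀ q ≥ q₀, q.primeFactors ⊆ S → ∀ D : ℕ,
      (D : ℤ) ∣ eval (point θ q) F → (D : ℤ) ∣ eval (point θ q) G → (D : ℝ) < (q : ℝ) ^ ε := by
  have : Nonempty (Fin n) := ⟨⟨0, hn⟩⟩
  obtain ⟨q₀, h⟩ := Pool.Agent.Q4.Gcd.gcd_small (S.filter Nat.Prime)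
    (fun p hp => (Finset.mem_filter.1 hp).2) θ halg hind F G hF hG hFG hε
  refine ⟨q₀, fun q hq hS => h q hq fun p hp => ?_⟩
  exact Finset.mem_filter.2 ⟨hS hp, Nat.prime_of_mem_primeFactors hp⟩

end Pool.Agent.Results.MP_17a322_nt.CommonDivisorsAtTruncations
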