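import Pool.Agent.Q13.GM.Glob

set_option autoImplicit false

/-!
# Vojta's inequality at the archimedean place for the geometric mean of the Weil functions

`X = ℙ^m` over `ℚ`, `S = {∞}`, rational points, `m` hypersurfaces `{F i = 0}` of arbitrary degrees
with algebraic coefficients.
-/

namespace Pool.Agent.Results.MP_17a322_nt.GeometricMean

open MvPolynomial

/-- The coprime homogeneous coordinates of the rational points of projective space. -/
def Coprime {n : ℕ} (x : Fin n → ℤ) : Prop := ∀ g : ℤ, (∀ j, g ∣ x j) → IsUnit g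

/-- The multiplicative height of the rational point with coprime coordinates `x`. -/
noncomputable def H {n : ℕ} (x : Fin n → ℤ) : ℝ := ⨆ j, |(x j : ℝ)|

/-- The value of a complex polynomial at a real vector. -/
noncomputable def val {n : ℕ} (F : MvPolynomial (Fin n) ℂ) (P : Fin n → ℝ) : ℂ :=
  eval (fun j => (P j : ℂ)) F

/-- The Weil function `λ_{∞,D}(x)` of the hypersurface `D = {F = 0}` of degree `d`. -/
noncomputable def weil {n : ℕ} (F : MvPolynomial (Fin n) ℂ) (d : ℕ) (x : Fin n → ℤ) : ℝ :=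
  Real.log (H x ^ d / ‖val F fun j => (x j : ℝ)‖)

/-- The `m` hypersurfaces `{F i = 0}` of `ℙ^m` are smooth and transversal at their real
intersection points: at each real point `P` on all of them the gradients are linearly
independent. -/
def Transversal {m : ℕ} (F : Fin m → MvPolynomial (Fin (m + 1)) ℂ) : Prop :=
  ∀ P : Fin (m + 1) → ℝ, P ≠ 0 → (∀ i, val (F i) P = 0) →
    LinearIndependent ℂ fun i j => val (pderiv j (F i)) P

/-- Let `F 1, ..., F m` be forms of degrees `d i ≥ 1` with algebraic coefficients in `m + 1`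
variables that are transversal at their real intersection points. For every `ε > 0` there are
finitely many hypersurfaces over `ℚ` and a constant `C` such that
`m * (∏ i, λ_{∞,F i}(x)⁺) ^ (1 / m) ≤ (m + 1 + ε) h(x) + C` for all rational points `x` off the
`{F i = 0}` and off these hypersurfaces.

Vojta's inequality for the divisor `D = ∑ {F i = 0}` is `∑ i, λ_{∞,F i}(x) ≤ (m + 1 + ε) h(x) + C`.
-/
theorem result {m : ℕ} (hm : 1 ≤ m) (F : Fin m → MvPolynomial (Fin (m + 1)) ℂ) (d : Fin m → ℕ)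
    (hd : ∀ i, 1 ≤ d i) (hF : ∀ i, (F i).IsHomogeneous (d i))
    (hFa : ∀ i e, IsAlgebraic ℚ (coeff e (F i))) (hT : Transversal F) (ε : ℝ) (hε : 0 < ε) :
    ∃ (Z : Finset (MvPolynomial (Fin (m + 1)) ℤ)) (C : ℝ),
      (∀ z ∈ Z, z ≠ 0 ∧ ∃ N, z.IsHomogeneous N) ∧ ∀ x : Fin (m + 1) → ℤ, Coprime x →
      (∀ i, val (F i) (fun j => (x j : ℝ)) ≠ 0) → (∀ z ∈ Z, eval x z ≠ 0) →
      m * (∏ i, max 0 (weil (F i) (d i) x)) ^ (1 / (m : ℝ)) ≤
        (m + 1 + ε) * Real.log (H x) + C := by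
  have hm' : (1 : ℝ) ≤ m := by exact_mod_cast hm
  have hm0 : (0 : ℝ) < m := by linarith
  have hε' : 0 < (1 + 1 / (m : ℝ) + ε / m) ^ m - (1 + 1 / (m : ℝ)) ^ m := by
    rw [sub_pos]
    apply pow_lt_pow_left₀ _ (by positivity) (by omega)
    have : 0 < ε / m := by positivity
    linarith
  obtain ⟨Z, C, hZ, hC, h⟩ := Pool.Agent.Q13.GM.geom hm hd hF hFa (fun P hP h => hT P hP h) _ hε'
  refine ⟨Z, m * C ^ (1 / (m : ℝ)), hZ, fun x hx hFx hZx => ?_⟩
  have hx0 : x ≠ 0 := by
    intro h0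
    have := hx 0 (fun j => by rw [h0]; simp)
    exact not_isUnit_zero this
  have h1 := h x hx0 hFx hZx
  have hh : 0 ≤ Real.log (H x) := Real.log_nonneg (Pool.Agent.W180.RR.hgt_ge_one hx0)
  have hp : 0 ≤ ∏ i, max 0 (weil (F i) (d i) x) := Finset.prod_nonneg fun i _ => le_max_left _ _
  have h2 : ∏ i, max 0 (weil (F i) (d i) x) ≤
      ((1 + 1 / (m : ℝ) + ε / m) * Real.log (H x)) ^ m + C := by
    rw [mul_pow]
    refine le_trans h1 (le_of_eq ?_)
    rw [add_sub_cancel]
    rfl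
  have h3 : (∏ i, max 0 (weil (F i) (d i) x)) ^ (1 / (m : ℝ)) ≤
      (((1 + 1 / (m : ℝ) + ε / m) * Real.log (H x)) ^ m + C) ^ (1 / (m : ℝ)) :=
    Real.rpow_le_rpow hp h2 (by positivity)
  have h4 : (((1 + 1 / (m : ℝ) + ε / m) * Real.log (H x)) ^ m + C) ^ (1 / (m : ℝ)) ≤
      (((1 + 1 / (m : ℝ) + ε / m) * Real.log (H x)) ^ m) ^ (1 / (m : ℝ)) + C ^ (1 / (m : ℝ)) :=
    Real.rpow_add_le_add_rpow (by positivity) hC (by positivity)
      (by rw [div_le_one hm0]; exact hm')
  have h5 : (((1 + 1 / (m : ℝ) + ε / m) * Real.log (H x)) ^ m) ^ (1 / (m : ℝ)) =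
      (1 + 1 / (m : ℝ) + ε / m) * Real.log (H x) := by
    rw [← Real.rpow_natCast, ← Real.rpow_mul (by positivity), mul_one_div, div_self hm0.ne',
      Real.rpow_one]
  have h6 : (m : ℝ) * ((1 + 1 / (m : ℝ) + ε / m) * Real.log (H x)) =
      (m + 1 + ε) * Real.log (H x) := by
    field_simp
  rw [h5] at h4
  have h7 := mul_le_mul_of_nonneg_left (h3.trans h4) hm0.le
  rw [mul_add, h6] at h7
  exact h7

end Pool.Agent.Results.MP_17a322_nt.GeometricMean
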