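import Pool.Agent.Q13.AP.Prox

set_option autoImplicit false

/-!
# The proximity function of divisors that meet in finitely many points

`X = {G = 0}` is a projective scheme over `ℚ` in `ℙ^(n-1)`, of any dimension and with arbitrary
singularities, and `D = ∑ D_i` is the sum of sections `D_i = X ∩ {F i = 0}`, any `N` of which meet
in finitely many (algebraic) points, with contact at most `μ`, and no `M` of which have a common
point. For a normal crossings divisor of `ℙ^ν` with `n = ν + 1`: `N = ν`, `M = ν + 1`, `μ = 1`.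
-/

namespace Pool.Agent.Results.MP_17a322_nt.IntersectionPoints

open MvPolynomial

/-- The coprime homogeneous coordinates of the rational points. -/
def Coprime {n : ℕ} (x : Fin n → ℤ) : Prop := ∀ g : ℤ, (∀ j, g ∣ x j) → IsUnit g

/-- The multiplicative height of the rational point with coprime coordinates `x`. -/
noncomputable def H {n : ℕ} (x : Fin n → ℤ) : ℝ := ⨆ j, |(x j : ℝ)|

/-- The proximity function `m_{S,D}(x)`, for `S` the archimedean place and the primes in `S`, of
`D = ∑ {F i = 0}`, with `F i` of degree `d i`, at the rational point with coprime coordinates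
`x`. -/
noncomputable def proximity {n q : ℕ} (S : Finset ℕ) (F : Fin q → MvPolynomial (Fin n) ℤ)
    (d : Fin q → ℕ) (x : Fin n → ℤ) : ℝ :=
  ∑ i, (Real.log (H x ^ d i / |((eval x (F i) : ℤ) : ℝ)|) +
    ∑ p ∈ S, - Real.log (padicNorm p ((eval x (F i) : ℤ) : ℚ)))

/-- The polynomial with coefficients in `K`. -/
noncomputable def base (K : Type) [Field K] {n : ℕ} (P : MvPolynomial (Fin n) ℤ) :
    MvPolynomial (Fin n) K := MvPolynomial.map (Int.castRingHom K) P

/-- The `D_j`, `j ∈ J`, meet (over every extension of `K`) in `K`-rational points only, and the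
`μ`-th power of the ideal of these points is contained, locally, in the ideal of the scheme
`X ∩ {F j = 0, j ∈ J}`; for `μ = 1` this means that this scheme is reduced. -/
def Meet (K : Type) [Field K] {m n q : ℕ} (μ : ℕ) (G : Fin m → MvPolynomial (Fin n) ℤ)
    (F : Fin q → MvPolynomial (Fin n) ℤ) (J : Finset (Fin q)) : Prop :=
  (∀ (L : Type) [Field L] [Algebra K L] (x : Fin n → L), x ≠ 0 → (∀ j ∈ J, aeval x (F j) = 0) →
    (∀ k, aeval x (G k) = 0) → ∃ (y : Fin n → K) (c : L), x = c • fun b => algebraMap K L (y b)) ∧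
  ∀ a, ∀ Q ∈ (Ideal.span (Set.range (Sum.elim (fun j : J => base K (F j.1))
    (fun k => base K (G k))))).radical ^ μ, ∃ M : ℕ, X a ^ M * Q ∈
      Ideal.span (Set.range (Sum.elim (fun j : J => base K (F j.1)) (fun k => base K (G k))))

/-- Let `X = {G = 0}` be a projective scheme over `ℚ` in `ℙ^(n-1)`, let `D = ∑ D_i` be the sum of
sections of degrees `d i`, any `N` of which meet in finitely many points, rational over the number
field `K`, with contact at most `μ`, and no `M ≥ N` of which have a common point.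

(1) For every `ε > 0` there are finitely many hyperplanes over `ℚ` and a constant `C` such that
`m_{∞,D}(x) ≤ (Δ + (M - N) μ (1 + 1/(n-1)) + ε) h(x) + C` for the rational points `x` of `X` off
`D` and these hyperplanes, where `Δ` bounds the sums of `N - 1` of the degrees `d i`.

(2) If all common points of `N` of the `D_i` are on hyperplanes over `ℚ`, this holds with
`Δ + (M - N) μ` instead.

(3) For all finite sets `S` of primes and `ε > 0` there is `C` such that
`m_{S ∪ ∞,D}(x) ≤ (Δ + 2 (M - N) μ + ε) h(x) + C` for all rational points `x` of `X` off `D`, where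
`Δ` bounds the sums of at most `(N - 1) (|S| + 1)` of the degrees.

For normal crossings divisors of the plane whose components have degrees `d i ≤ d` the bounds are
`d + 3/2 + ε`, `d + 1` and `(|S| + 1) d + 2 + ε`. In particular Vojta's inequality
`m_{∞,D}(x) + h_K(x) ≤ C` (`h_K = -3 h`) holds off finitely many lines for normal crossings divisors
of lines and conics such that the common points are on rational lines, for instance of degree at
most two. -/
theorem result {m n q N M μ : ℕ} (hn : 2 ≤ n) (hN : 1 ≤ N) (hNM : N ≤ M)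
    (G : Fin m → MvPolynomial (Fin n) ℤ) (g : Fin m → ℕ) (hG : ∀ k, (G k).IsHomogeneous (g k))
    (F : Fin q → MvPolynomial (Fin n) ℤ) (d : Fin q → ℕ) (hF : ∀ i, (F i).IsHomogeneous (d i))
    (K : Type) [Field K] [NumberField K]
    (hmeet : ∀ J : Finset (Fin q), J.card = N → Meet K μ G F J)
    (hM : ∀ J : Finset (Fin q), J.card = M → ∀ (L : Type) [Field L] [Algebra K L]
      (x : Fin n → L), x ≠ 0 → (∀ j ∈ J, aeval x (F j) = 0) → ¬ ∀ k, aeval x (G k) = 0) :
    (∀ Δ : ℕ, (∀ I : Finset (Fin q), I.card ≤ N - 1 → ∑ i ∈ I, d i ≤ Δ) → ∀ ε : ℝ, 0 < ε →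
      ∃ (Z : Finset (Fin n → ℤ)) (C : ℝ), (∀ z ∈ Z, z ≠ 0) ∧ ∀ x : Fin n → ℤ, Coprime x →
        (∀ k, eval x (G k) = 0) → (∀ i, eval x (F i) ≠ 0) → (∀ z ∈ Z, ∑ l, z l * x l ≠ 0) →
        proximity ∅ F d x ≤
          (Δ + ((M : ℝ) - N) * μ * (1 + 1 / ((n : ℝ) - 1)) + ε) * Real.log (H x) + C) ∧
    ((∀ J : Finset (Fin q), J.card = N → ∀ y : Fin n → K, y ≠ 0 → (∀ j ∈ J, aeval y (F j) = 0) →
        (∀ k, aeval y (G k) = 0) → ∃ z : Fin n → ℤ, z ≠ 0 ∧ ∑ l, (z l : K) * y l = 0) →
      ∀ Δ : ℕ, (∀ I : Finset (Fin q), I.card ≤ N - 1 → ∑ i ∈ I, d i ≤ Δ) →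
      ∃ (Z : Finset (Fin n → ℤ)) (C : ℝ), (∀ z ∈ Z, z ≠ 0) ∧ ∀ x : Fin n → ℤ, Coprime x →
        (∀ k, eval x (G k) = 0) → (∀ i, eval x (F i) ≠ 0) → (∀ z ∈ Z, ∑ l, z l * x l ≠ 0) →
        proximity ∅ F d x ≤ (Δ + ((M : ℝ) - N) * μ) * Real.log (H x) + C) ∧
    ∀ S : Finset ℕ, (∀ p ∈ S, p.Prime) → ∀ Δ : ℕ,
      (∀ I : Finset (Fin q), I.card ≤ (N - 1) * (S.card + 1) → ∑ i ∈ I, d i ≤ Δ) →
      ∀ ε : ℝ, 0 < ε → ∃ C : ℝ, ∀ x : Fin n → ℤ, Coprime x →
        (∀ k, eval x (G k) = 0) → (∀ i, eval x (F i) ≠ 0) →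
        proximity S F d x ≤ (Δ + 2 * ((M : ℝ) - N) * μ + ε) * Real.log (H x) + C := by
  classical
  have hNM' : (0 : ℝ) ≤ ((M : ℝ) - N) * μ := by
    have : (N : ℝ) ≤ M := by exact_mod_cast hNM
    exact mul_nonneg (by linarith) (Nat.cast_nonneg _)
  have hH : ∀ x : Fin n → ℤ, H x = Pool.Agent.W180.RR.hgt x := fun x => rfl
  have hpos : ∀ x : Fin n → ℤ, Coprime x → 1 ≤ H x := fun x hx =>
    Pool.Agent.W180.RR.hgt_ge_one (Pool.Agent.W180.RR.Prim.ne hx)
  have hprox : ∀ (S : Finset ℕ), (∀ p ∈ S, p.Prime) → ∀ x : Fin n → ℤ, Coprime x →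
      (∀ i, eval x (F i) ≠ 0) → proximity S F d x = ∑ i, (d i * Real.log (H x) -
        Real.log (Pool.Agent.W180.RR.sfree S (eval x (F i)))) := by
    intro S hS x hx hFx
    unfold proximity
    refine Finset.sum_congr rfl fun i _ => ?_
    have h1 : |((eval x (F i) : ℤ) : ℝ)| ≠ 0 := by
      rw [abs_ne_zero]
      exact_mod_cast hFx i
    have h2 : ∀ p ∈ S, (padicNorm p ((eval x (F i) : ℤ) : ℚ) : ℝ) ≠ 0 := by
      intro p hp
      have : Fact p.Prime := ⟨hS p hp⟩
      have h3 : padicNorm p ((eval x (F i) : ℤ) : ℚ) ≠ 0 :=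
        padicNorm.nonzero (by exact_mod_cast hFx i)
      exact_mod_cast h3
    have h3 : 0 < H x := by linarith [hpos x hx]
    unfold Pool.Agent.W180.RR.sfree
    rw [Real.log_mul h1 (Finset.prod_ne_zero_iff.2 h2), Real.log_prod h2,
      Real.log_div (pow_pos h3 _).ne' h1, Real.log_pow, Finset.sum_neg_distrib]
    ring
  refine ⟨fun Δ hΔ ε hε => ?_, fun hy Δ hΔ => ?_, fun S hS Δ hΔ ε hε => ?_⟩
  · set ε' : ℝ := ε / (((M : ℝ) - N) * μ + 1) with hε'
    have hε'0 : 0 < ε' := by positivity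
    have hn1 : (0 : ℝ) < (n : ℝ) - 1 := by
      have : (2 : ℝ) ≤ n := by exact_mod_cast hn
      linarith
    obtain ⟨Z, C, hZ, hC⟩ := Pool.Agent.Q13.AP.proxInf (μ := μ) G g hG F d hF hN hNM K
      (fun J hJ => (hmeet J hJ).1) (fun J hJ => (hmeet J hJ).2) hM Δ hΔ
      (1 + 1 / ((n : ℝ) - 1) + ε') (by positivity)
      (fun w y _ => Pool.Agent.Q13.AP.far_sch w hn ε' hε'0 y)
    refine ⟨Z, C, hZ, fun x hx hGx hFx hZx => ?_⟩
    have h1 := hC x hx hGx hFx hZx
    rw [hprox ∅ (by simp) x hx hFx]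
    refine h1.trans ?_
    have h2 : 0 ≤ Real.log (H x) := Real.log_nonneg (hpos x hx)
    have h3 : ((M : ℝ) - N) * μ * ε' ≤ ε := by
      rw [hε', mul_div_assoc', div_le_iff₀ (by positivity)]
      nlinarith
    have h4 : (Δ + ((M : ℝ) - N) * μ * (1 + 1 / ((n : ℝ) - 1) + ε')) ≤
        Δ + ((M : ℝ) - N) * μ * (1 + 1 / ((n : ℝ) - 1)) + ε := by
      linarith [mul_add (((M : ℝ) - N) * μ) (1 + 1 / ((n : ℝ) - 1)) ε']
    have h5 := mul_le_mul_of_nonneg_right h4 h2
    rw [← hH x]
    linarith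
  · obtain ⟨Z, C, hZ, hC⟩ := Pool.Agent.Q13.AP.proxInf (μ := μ) G g hG F d hF hN hNM K
      (fun J hJ => (hmeet J hJ).1) (fun J hJ => (hmeet J hJ).2) hM Δ hΔ
      1 zero_le_one
      (fun w y hJ => by
        obtain ⟨J, hJ, h1, h2⟩ := hJ
        have e1 : ∀ P : MvPolynomial (Fin n) ℤ, eval y.rep (Pool.Agent.W180.RR.bK K P) =
            aeval y.rep P := by
          intro P
          rw [← Pool.Agent.W180.RR.aeval_bK (K := K) P y.rep]
          rfl
        obtain ⟨z, hz, hzy⟩ := hy J hJ y.rep y.rep_nonzero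
          (fun j hj => by rw [← e1]; exact h1 j hj) (fun k => by rw [← e1]; exact h2 k)
        exact Pool.Agent.Q13.AP.far_hyp w y z hz hzy)
    refine ⟨Z, C, hZ, fun x hx hGx hFx hZx => ?_⟩
    have h1 := hC x hx hGx hFx hZx
    rw [hprox ∅ (by simp) x hx hFx]
    rw [mul_one] at h1
    exact h1
  · rcases Nat.lt_or_ge q N with hlt | hNq
    · refine ⟨0, fun x hx hGx hFx => ?_⟩
      rw [hprox S hS x hx hFx]
      have h2 : 0 ≤ Real.log (H x) := Real.log_nonneg (hpos x hx)
      have h3 : ∑ i, (d i * Real.log (H x) -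
          Real.log (Pool.Agent.W180.RR.sfree S (eval x (F i)))) ≤ ∑ i, d i * Real.log (H x) := by
        refine Finset.sum_le_sum fun i _ => ?_
        have := Real.log_nonneg (Pool.Agent.W180.RR.sfree_pos S hS (hFx i))
        linarith
      rw [← Finset.sum_mul] at h3
      have h4 : (∑ i, (d i : ℝ)) ≤ Δ := by
        have h5 := hΔ Finset.univ (by
          rw [Finset.card_univ, Fintype.card_fin]
          have : N - 1 ≤ (N - 1) * (S.card + 1) := Nat.le_mul_of_pos_right _ (Nat.succ_pos _)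
          omega)
        exact_mod_cast h5
      have h5 : (∑ i, (d i : ℝ)) ≤ Δ + 2 * ((M : ℝ) - N) * μ + ε := by linarith
      have h6 := mul_le_mul_of_nonneg_right h5 h2
      linarith
    · set ε' : ℝ := ε / (((M : ℝ) - N) * μ + 1) with hε'
      have hε'0 : 0 < ε' := by positivity
      obtain ⟨C, hC⟩ := Pool.Agent.Q13.AP.proxS (μ := μ) G g hG F d hF hN hNM K
        (fun J hJ => (hmeet J hJ).1) (fun J hJ => (hmeet J hJ).2) hM hNq S hS Δ hΔ ε' hε'0
      refine ⟨C, fun x hx hGx hFx => ?_⟩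
      have h1 := hC x hx hGx hFx
      rw [hprox S hS x hx hFx]
      refine h1.trans ?_
      have h2 : 0 ≤ Real.log (H x) := Real.log_nonneg (hpos x hx)
      have h3 : ((M : ℝ) - N) * μ * ε' ≤ ε := by
        rw [hε', mul_div_assoc', div_le_iff₀ (by positivity)]
        nlinarith
      have h4 : (Δ + ((M : ℝ) - N) * μ * (2 + ε')) ≤
          Δ + 2 * ((M : ℝ) - N) * μ + ε := by
        linarith [mul_add (((M : ℝ) - N) * μ) 2 ε']
      have h5 := mul_le_mul_of_nonneg_right h4 h2
      rw [← hH x]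
      linarith

end Pool.Agent.Results.MP_17a322_nt.IntersectionPoints
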