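import Mathlib
import Pool.Agent.Q4.Tube.Thue

set_option autoImplicit false

/-!
# Thue and Pell inequalities over all integral points near an irrational ray

`Φ(X; U, V) = Σᵢ Pᵢ(X₀, …, Xₙ) Uⁱ V^(k - i)` is a binary form whose coefficients are polynomials. We
solve the inequalities `0 < |Φ(x; u, v)| ≤ x₀ ^ η` simultaneously for all integral points `x` near the
ray spanned by `(1, θ₁, …, θₙ)`, for algebraic numbers `θᵢ`.
-/

namespace Pool.Agent.Results.MP_17a322_nt.ThueNearRays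

open MvPolynomial

/-- the point `(q, x₁, …, xₙ)`; the variable `none` is the one of `q` -/
def point {n : ℕ} (q : ℕ) (x : Fin n → ℤ) : Option (Fin n) → ℤ := fun o => o.elim (q : ℤ) x

/-- the integral points `(q, x₁, …, xₙ)` near the ray spanned by `(1, θ₁, …, θₙ)`: `q = u w` where `u`
is composed of primes of `S` and `w ≤ q ^ η`, and `|θₛ q - xₛ| ≤ q ^ η` for all `s` -/
def NearRay {n : ℕ} (S : Finset ℕ) (θ : Fin n → ℝ) (η : ℝ) (q : ℕ) (x : Fin n → ℤ) : Prop :=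
  (∃ u w : ℕ, q = u * w ∧ u.primeFactors ⊆ S ∧ (w : ℝ) ≤ (q : ℝ) ^ η) ∧
  ∀ s, |θ s * q - x s| ≤ (q : ℝ) ^ η

/-- the value `Σᵢ Pᵢ(y) uⁱ v^(k - i)` of the binary form, `P = Σᵢ Pᵢ Yⁱ` of degree `k` -/
noncomputable def formValue {n : ℕ} (P : Polynomial (MvPolynomial (Option (Fin n)) ℤ))
    (y : Option (Fin n) → ℤ) (u v : ℤ) : ℤ :=
  ∑ i ∈ Finset.range (P.natDegree + 1), eval y (P.coeff i) * u ^ i * v ^ (P.natDegree - i)

/-- the polynomial `Σᵢ Pᵢ Aⁱ B^(k - i)`, for rational polynomials `A`, `B` -/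
noncomputable def formPoly {n : ℕ} (P : Polynomial (MvPolynomial (Option (Fin n)) ℤ))
    (A B : MvPolynomial (Option (Fin n)) ℚ) : MvPolynomial (Option (Fin n)) ℚ :=
  ∑ i ∈ Finset.range (P.natDegree + 1), map (Int.castRingHom ℚ) (P.coeff i) * A ^ i
    * B ^ (P.natDegree - i)

/-- the value at `(1, θ)` of the homogeneous part of degree `m` -/
noncomputable def atInfinity {n : ℕ} (θ : Fin n → ℝ) (m : ℕ) (F : MvPolynomial (Option (Fin n)) ℤ) : ℝ :=
  aeval (fun o : Option (Fin n) => (o.elim 1 θ : ℝ)) (homogeneousComponent m F)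

/-- the polynomial `Σᵢ topᵢ(1, θ) Yⁱ`, where `topᵢ` is the homogeneous part of degree
`(deg P - i) D + d` of the `i`-th coefficient of `P` -/
noncomputable def fibreAtInfinity {n : ℕ} (θ : Fin n → ℝ) (D d : ℕ)
    (P : Polynomial (MvPolynomial (Option (Fin n)) ℤ)) : Polynomial ℝ :=
  ∑ i ∈ Finset.range (P.natDegree + 1),
    Polynomial.C (atInfinity θ ((P.natDegree - i) * D + d) (P.coeff i)) * Polynomial.X ^ i

/-- Let `n ≥ 1`, `1, θ₁, …, θₙ` real algebraic numbers, linearly independent over `ℚ`, and `S` a finite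
set of primes. Let `Φ(X; U, V) = Σᵢ Pᵢ(X) Uⁱ V^(k - i)`, `k ≥ 2`, where `Pᵢ ∈ ℤ[X₀, …, Xₙ]` has degree
at most `(k - i) D + d`, `(k - 1) D + d > 0`, the part of degree `d` of `P_k` does not vanish at
`(1, θ)` and the fibre at infinity is separable. Let `K ∈ ℕ`. There are `η > 0`, `N` and a finite set
`A` of pairs `(G, H)` of rational polynomials with `Φ(X; G, H)` a nonzero constant, such that for all
integral points `x = (q, x₁, …, xₙ)` near the ray with `q ≥ N` and all integers `u, v` with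
`0 < |v| ≤ q ^ K` and `0 < |Φ(x; u, v)| ≤ q ^ η`: `(u, v) = m (G(x), H(x))` for an integer `m` and a
pair `(G, H) ∈ A`. -/
theorem result (n : ℕ) (hn : 0 < n) (θ : Fin n → ℝ) (halg : ∀ s, IsAlgebraic ℚ (θ s))
    (hind : LinearIndependent ℚ (fun o : Option (Fin n) => (o.elim 1 θ : ℝ))) (S : Finset ℕ)
    (P : Polynomial (MvPolynomial (Option (Fin n)) ℤ)) (D d : ℕ) (hk : 2 ≤ P.natDegree)
    (hDd : 0 < (P.natDegree - 1) * D + d)
    (hdeg : ∀ i, (P.coeff i).totalDegree ≤ (P.natDegree - i) * D + d)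
    (hlead : atInfinity θ d P.leadingCoeff ≠ 0) (hsep : (fibreAtInfinity θ D d P).Separable) (K : ℕ) :
    ∃ (η : ℝ) (N : ℕ)
      (A : Finset (MvPolynomial (Option (Fin n)) ℚ × MvPolynomial (Option (Fin n)) ℚ)), 0 < η ∧
      (∀ G ∈ A, ∃ r : ℚ, r ≠ 0 ∧ formPoly P G.1 G.2 = C r) ∧
      ∀ q ≥ N, ∀ x, NearRay S θ η q x → ∀ u v : ℤ, v ≠ 0 → |v| ≤ (q : ℤ) ^ K →
        formValue P (point q x) u v ≠ 0 → |(formValue P (point q x) u v : ℝ)| ≤ (q : ℝ) ^ η →
        ∃ G ∈ A, ∃ m : ℤ, (u : ℚ) = m * aeval (fun o => ((point q x o : ℤ) : ℚ)) G.1 ∧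
          (v : ℚ) = m * aeval (fun o => ((point q x o : ℤ) : ℚ)) G.2 := by
  classical
  have : Nonempty (Fin n) := ⟨⟨0, hn⟩⟩
  have hf : ∀ x : ℕ, x.primeFactors ⊆ S → x.primeFactors ⊆ S.filter Nat.Prime := fun x hx p hp =>
    Finset.mem_filter.2 ⟨hx hp, Nat.prime_of_mem_primeFactors hp⟩
  obtain ⟨η, N, A, hη, hA, h⟩ := Pool.Agent.Q4.Tube.thue_main (S.filter Nat.Prime)
    (fun p hp => (Finset.mem_filter.1 hp).2) halg hind P D d hk hDd hlead hdeg hsep K
  refine ⟨η, N, A, hη, hA, fun q hq x hx => h q hq x ⟨?_, hx.2⟩⟩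
  obtain ⟨u, w, h1, h2, h3⟩ := hx.1
  exact ⟨u, w, h1, hf _ h2, h3⟩

end Pool.Agent.Results.MP_17a322_nt.ThueNearRays
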